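import Pool.Agent.MP_ea150c_mp.H20.SpecR

/-! The unit root theorem for an abstract sequence. -/

namespace Pool.Agent.MP_ea150c_mp.H27

open Polynomial Pool.Agent.MP_ea150c_mp.H20

variable {p : ℕ} [Fact p.Prime]

theorem io_eq (x : ℤ_[p]) : io p x = algebraMap ℚ_[p] (Kp p) x :=
  IsScalarTower.algebraMap_apply ℤ_[p] ℚ_[p] (Kp p) x

theorem norm_io (x : ℤ_[p]) : ‖io p x‖ = ‖x‖ := by
  rw [io_eq]; exact PadicAlgCl.norm_extends p (x : ℚ_[p])

theorem ofUnit : OfUnit := by
  intro hP hG hC p _ T h1 hR ⟨d, u, Λ, hΛ⟩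
  have hp : (1 : ℝ) < p := by exact_mod_cast (Fact.out : p.Prime).one_lt
  have hp0 : (0 : ℝ) < p := by linarith
  have hk : ∀ k, 1 ≤ k → (p : ℤ_[p]) ^ k ∣ (T k : ℤ_[p]) - u ^ k := fun k hk => by
    have h := (pow_dvd_pow _ (Nat.le_add_right k _)).trans (hΛ k hk)
    have := h.sub (Dvd.intro (Λ ^ k).trace rfl)
    rwa [show ∀ a b c : ℤ_[p], a - (b - c) - c = a - b from fun a b c => by ring] at this
  have hu : IsUnit u := by
    by_contra hn
    have h2 : (p : ℤ_[p]) ∣ u := (PadicInt.norm_lt_one_iff_dvd u).1 (PadicInt.not_isUnit_iff.1 hn)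
    have h3 := hk 1 le_rfl
    rw [pow_one, pow_one] at h3
    have h4 := h3.add h2
    rw [sub_add_cancel] at h4
    exact h1 ((PadicInt.norm_int_lt_one_iff_dvd _).1 ((PadicInt.norm_lt_one_iff_dvd _).2 h4))
  have hu1 : ‖io p u‖ = 1 := by rw [norm_io]; exact PadicInt.isUnit_iff.1 hu
  set M : Matrix (Fin d) (Fin d) (Kp p) := ((p : ℤ_[p]) • Λ).map (io p) with hM
  have hs : ∀ γ ∈ M.charpoly.roots, ‖γ‖ * p ≤ 1 := by
    intro γ hγ
    have h := hG p (Fin d) M (fun _ => (p : ℝ)⁻¹) (fun _ => 1) p hp0 (fun _ => one_pos)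
      (fun i j => by
        simp only [hM, Matrix.map_apply, Matrix.smul_apply, smul_eq_mul, mul_one, norm_io,
          norm_mul, PadicInt.norm_p]
        exact mul_le_of_le_one_right (by positivity) (PadicInt.norm_le_one _))
    simp only [inv_mul_cancel₀ hp0.ne', max_self, Finset.prod_const_one] at h
    obtain ⟨s, hs⟩ := Multiset.exists_cons_of_mem hγ
    rw [hs, Multiset.map_cons, Multiset.prod_cons] at h
    have h2 : 1 ≤ (s.map fun γ => max 1 (‖γ‖ * p)).prod :=
      Multiset.prod_induction (1 ≤ ·) _ (fun a b => one_le_mul_of_one_le_of_one_le) le_rfl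
        fun x hx => by
          obtain ⟨y, -, rfl⟩ := Multiset.mem_map.1 hx
          exact le_max_left _ _
    have h3 := le_max_right 1 (‖γ‖ * p)
    have h4 := le_max_left 1 (‖γ‖ * p)
    nlinarith
  set e : ℝ := -(1 + 1 / ((d : ℝ) + 1)) with he
  have hρ : (p : ℝ) ^ e < (p : ℝ)⁻¹ := by
    rw [← Real.rpow_neg_one]
    refine Real.rpow_lt_rpow_of_exponent_lt hp ?_
    have : (0 : ℝ) < 1 / ((d : ℝ) + 1) := by positivity
    linarith
  obtain ⟨a1, a2⟩ := hC (Kp p) T (io p u) M.charpoly.roots p ((p : ℝ) ^ e) hR (by positivity)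
    (by rw [hu1]; exact hρ.trans (inv_lt_one_of_one_lt₀ hp))
    (fun h => by have := hs _ h; rw [hu1] at this; linarith) fun k hk => by
      have h := hΛ k hk
      rw [← Ideal.mem_span_singleton, ← PadicInt.norm_le_pow_iff_mem_span_pow, ← norm_io] at h
      have e1 : ps M.charpoly.roots k = io p ((p : ℤ_[p]) ^ k * (Λ ^ k).trace) := by
        rw [← hP, hM, ← Matrix.map_pow, _root_.smul_pow, ← AddMonoidHom.map_trace, Matrix.trace_smul,
          smul_eq_mul]
      rw [e1, ← map_pow, ← map_intCast (io p), ← map_sub, ← map_sub]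
      refine h.trans ?_
      rw [← Real.rpow_intCast, ← Real.rpow_natCast, ← Real.rpow_mul hp0.le]
      nth_rewrite 2 [← Real.rpow_one p]
      rw [← Real.rpow_add hp0]
      refine Real.rpow_le_rpow_of_exponent_le hp.le ?_
      have h3 : (k : ℝ) < ((k / (d + 1) : ℕ) + 1) * ((d : ℝ) + 1) := by
        have := Nat.lt_div_mul_add (a := k) (Nat.succ_pos d)
        have h4 : k < (k / (d + 1) + 1) * (d + 1) := by rw [add_mul, one_mul]; exact this
        exact_mod_cast h4
      have h5 : (k : ℝ) / ((d : ℝ) + 1) < (k / (d + 1) : ℕ) + 1 :=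
        (div_lt_iff₀ (by positivity)).2 h3
      have h6 : e * k = -(k + k / ((d : ℝ) + 1)) := by rw [he]; ring
      rw [h6, Int.cast_neg, Int.cast_natCast, Nat.cast_add]
      linarith
  rw [io_eq] at a1 a2
  have hi := (algebraMap ℚ_[p] (Kp p)).injective
  refine ⟨u, hu, (isAlgebraic_algebraMap_iff hi).1 a1, hk, fun γ h2 h3 => (a2 γ ?_ h3).trans_lt hρ⟩
  rwa [minpoly.algebraMap_eq hi]

end Pool.Agent.MP_ea150c_mp.H27
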